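import Mathlib

set_option autoImplicit false
set_option linter.unusedSectionVars false

namespace Pool.Agent.H.MP_0d0d23_co

open Finset

variable {N : Type} [Fintype N] [DecidableEq N]

/-- `i` is at least as desirable as `j` -/
def Des (W : Finset N → Prop) (i j : N) : Prop :=
  ∀ S : Finset N, i ∉ S → j ∉ S → W (insert j S) → W (insert i S)

open Classical in
/-- type vector: number of members of `S` in the class of `p` -/
noncomputable def typ (W : Finset N → Prop) (S : Finset N) : N → ℕ :=
  fun p => (S.filter fun i => Des W i p ∧ Des W p i).card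

open Classical in
/-- cumulative sums: number of members of `S` in the class of `p` or a higher class -/
noncomputable def cum (W : Finset N → Prop) (S : Finset N) : N → ℕ :=
  fun p => (S.filter fun i => Des W i p).card

/-- shift-minimal winning coalition -/
def ShiftMin (W : Finset N → Prop) (S : Finset N) : Prop :=
  W S ∧ ∀ T : Finset N, (∀ p, cum W T p ≤ cum W S p) → typ W T ≠ typ W S → ¬ W T

/-- `m`-invariant trade robust -/
def InvRobust (W : Finset N → Prop) (m : ℕ) : Prop :=
  ¬ ∃ (j : ℕ) (X Y : Fin j → Finset N), 1 ≤ j ∧ j ≤ m ∧ (∀ a, ShiftMin W (X a)) ∧ (∀ a, ¬ W (Y a)) ∧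
    ∀ p, (univ.filter fun a => p ∈ X a).card = (univ.filter fun a => p ∈ Y a).card

structure Good (W : Finset N → Prop) (r m : ℕ) : Prop where
  mono : ∀ S T, S ⊆ T → W S → W T
  emp : ¬ W ∅
  full : W univ
  comp : ∀ i j, Des W i j ∨ Des W j i
  num : (typ W '' {S | ShiftMin W S}).ncard = r
  rob : InvRobust W m
  nrob : ¬ InvRobust W (m + 1)

lemma des_refl (W : Finset N → Prop) (i : N) : Des W i i := fun _ _ _ h => h

omit [Fintype N] in
lemma cardO (S : Finset (Option N)) (P : Option N → Prop) [DecidablePred P] :
    (S.filter P).card = (if none ∈ S ∧ P none then 1 else 0) +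
      ((eraseNone S).filter fun i => P (some i)).card := by
  have h : ((eraseNone S).filter fun i => P (some i)) = eraseNone (S.filter P) := by
    ext i; simp
  rw [h]
  by_cases h' : none ∈ S.filter P
  · rw [card_eraseNone_of_mem h', if_pos (by simpa using h')]
    have := card_pos.2 ⟨_, h'⟩
    omega
  · rw [card_eraseNone_of_not_mem h', if_neg (by simpa using h')]
    simp

omit [Fintype N] in
lemma er_ins (S : Finset (Option N)) (i : N) : eraseNone (insert (some i) S) = insert i (eraseNone S) := by
  ext; simp

section
variable {W : Finset N → Prop} {V : Finset (Option N) → Prop}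
  (h1 : ∀ i j, Des V (some i) (some j) ↔ Des W i j) (h2 : ∀ x, Des V none x)
  (h3 : ∀ i, ¬ Des V (some i) none)
include h1 h2 h3

lemma typ_eq (S : Finset (Option N)) :
    typ V S = fun o => o.elim (if none ∈ S then 1 else 0) (typ W (eraseNone S)) := by
  classical
  ext o
  cases o with
  | none => simp [typ, cardO, h2, h3]
  | some p => simp [typ, cardO, h1, h3]

lemma cum_none (S : Finset (Option N)) : cum V S none = if none ∈ S then 1 else 0 := by
  classical
  simp [cum, cardO, h2, h3]

lemma cum_some (S : Finset (Option N)) (p : N) :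
    cum V S (some p) = (if none ∈ S then 1 else 0) + cum W (eraseNone S) p := by
  classical
  simp [cum, cardO, h1, h2]

lemma same (S T : Finset (Option N)) (h : none ∈ T ↔ none ∈ S) :
    ((∀ p, cum V T p ≤ cum V S p) ↔ ∀ p, cum W (eraseNone T) p ≤ cum W (eraseNone S) p) ∧
    (typ V T = typ V S ↔ typ W (eraseNone T) = typ W (eraseNone S)) := by
  constructor
  · simp only [Option.forall, cum_none h1 h2 h3, cum_some h1 h2 h3, h, le_refl, true_and,
      add_le_add_iff_left]
  · rw [typ_eq h1 h2 h3, typ_eq h1 h2 h3, funext_iff, funext_iff]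
    simp [Option.forall, h]

end

lemma elim_inj (c : ℕ) : Function.Injective fun (τ : N → ℕ) => fun o : Option N => o.elim c τ :=
  fun _ _ h => funext fun p => congrFun h (some p)

lemma veto {W : Finset N → Prop} {r m : ℕ} (g : Good W r m) (hv : ∀ p, W (univ.erase p)) :
    Good (fun S : Finset (Option N) => none ∈ S ∧ W (eraseNone S)) r m ∧
      ∀ x, ¬ (fun S : Finset (Option N) => none ∈ S ∧ W (eraseNone S)) {x} := by
  set V := fun S : Finset (Option N) => none ∈ S ∧ W (eraseNone S) with hV
  have h1 : ∀ i j, Des V (some i) (some j) ↔ Des W i j := by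
    intro i j
    constructor
    · intro h S hi hj hw
      have := h (insertNone S) (by simpa) (by simpa) (by simpa [hV, er_ins])
      simpa [hV, er_ins] using this
    · intro h S hi hj hw
      simp only [hV, er_ins, mem_insert, reduceCtorEq, false_or] at hw ⊢
      exact ⟨hw.1, h _ (by simpa) (by simpa) hw.2⟩
  have h2 : ∀ x, Des V none x := by
    intro x S hi hj hw
    cases x with
    | none => exact hw
    | some j => simp [hV, hi] at hw
  have h3 : ∀ i, ¬ Des V (some i) none := by
    intro i h
    have := h ((univ.erase i).map Function.Embedding.some) (by simp) (by simp)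
      ⟨by simp, g.mono _ _ (fun j hj => by simpa using hj) (hv i)⟩
    simp [hV] at this
  have hs : ∀ S, ShiftMin V S ↔ none ∈ S ∧ ShiftMin W (eraseNone S) := by
    intro S
    constructor
    · rintro ⟨⟨a, b⟩, c⟩
      refine ⟨a, b, fun T d e f => ?_⟩
      have := same h1 h2 h3 S (insertNone T) (by simpa)
      simp only [eraseNone_insertNone] at this
      exact c (insertNone T) (this.1.2 d) (fun q => e (this.2.1 q)) ⟨by simp, by simpa⟩
    · rintro ⟨a, b, c⟩
      refine ⟨⟨a, b⟩, fun T d e f => ?_⟩
      have := same h1 h2 h3 S T (by simp [a, f.1])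
      exact c _ (this.1.1 d) (fun q => e (this.2.2 q)) f.2
  have hr : ∀ k, InvRobust V k ↔ InvRobust W k := by
    intro k
    refine not_congr ⟨?_, ?_⟩
    · rintro ⟨j, X, Y, a, b, c, d, e⟩
      refine ⟨j, fun i => eraseNone (X i), fun i => eraseNone (Y i), a, b, fun i => ((hs _).1 (c i)).2,
        fun i hw => d i ⟨?_, hw⟩, fun p => by simpa using e (some p)⟩
      have := e none
      rw [filter_true_of_mem fun i _ => ((hs _).1 (c i)).1] at this
      have h4 := eq_univ_of_card _ (this.symm.trans card_univ)
      have h5 := mem_univ i
      rw [← h4] at h5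
      exact (mem_filter.1 h5).2
    · rintro ⟨j, X, Y, a, b, c, d, e⟩
      refine ⟨j, fun i => insertNone (X i), fun i => insertNone (Y i), a, b,
        fun i => (hs _).2 ⟨by simp, by simpa using c i⟩, fun i hw => d i (by simpa using hw.2), fun p => ?_⟩
      cases p with
      | none => simp
      | some p => simpa using e p
  refine ⟨⟨fun S T h hw => ⟨h hw.1, g.mono _ _ (eraseNone.monotone h) hw.2⟩, by simp [hV],
    ⟨by simp, g.mono _ _ (fun i _ => by simp) g.full⟩, ?_, ?_, (hr _).2 g.rob, fun h => g.nrob ((hr _).1 h)⟩, ?_⟩
  · rintro (_ | i) (_ | j)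
    · exact .inl (h2 _)
    · exact .inl (h2 _)
    · exact .inr (h2 _)
    · simpa [h1] using g.comp i j
  · rw [← g.num, ← Set.ncard_image_of_injective (typ W '' _) (elim_inj 1)]
    congr 1
    ext τ
    constructor
    · rintro ⟨S, a, rfl⟩
      have := (hs S).1 a
      exact ⟨_, ⟨_, this.2, rfl⟩, by rw [typ_eq h1 h2 h3, if_pos this.1]⟩
    · rintro ⟨_, ⟨S, a, rfl⟩, rfl⟩
      exact ⟨insertNone S, (hs _).2 ⟨by simp, by simpa using a⟩, by simp [typ_eq h1 h2 h3]⟩
  · rintro (_ | i) h
    · apply g.emp
      have : eraseNone ({none} : Finset (Option N)) = ∅ := by ext; simp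
      exact this ▸ h.2
    · simpa using h.1

lemma pass {W : Finset N → Prop} {r m : ℕ} (g : Good W r m) (hv : ∀ p, ¬ W {p}) :
    Good (fun S : Finset (Option N) => none ∈ S ∨ W (eraseNone S)) (r + 1) m ∧
      ∀ x, (fun S : Finset (Option N) => none ∈ S ∨ W (eraseNone S)) (univ.erase x) := by
  classical
  set V := fun S : Finset (Option N) => none ∈ S ∨ W (eraseNone S) with hV
  have h0 : eraseNone ({none} : Finset (Option N)) = ∅ := by ext; simp
  have h1 : ∀ i j, Des V (some i) (some j) ↔ Des W i j := by
    intro i j
    constructor
    · intro h S hi hj hw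
      have := h (S.map Function.Embedding.some) (by simpa) (by simpa) (by simpa [hV, er_ins])
      simpa [hV, er_ins] using this
    · intro h S hi hj hw
      simp only [hV, er_ins, mem_insert, reduceCtorEq, false_or] at hw ⊢
      exact hw.imp id (h _ (by simpa) (by simpa))
  have h2 : ∀ x, Des V none x := fun x S _ _ _ => .inl (by simp)
  have h3 : ∀ i, ¬ Des V (some i) none := by
    intro i h
    have := h ∅ (by simp) (by simp) (.inl (by simp))
    simp only [hV, er_ins] at this
    simp [hv i] at this
  have ht : ∀ (S : Finset N) (p : N), p ∈ S → 0 < typ W S p := fun S p hp =>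
    card_pos.2 ⟨p, by simp [hp, des_refl]⟩
  have hc : ∀ (S : Finset N) (p : N), p ∈ S → 0 < cum W S p := fun S p hp =>
    card_pos.2 ⟨p, by simp [hp, des_refl]⟩
  have hs : ∀ S, ShiftMin V S ↔ S = {none} ∨ (none ∉ S ∧ ShiftMin W (eraseNone S)) := by
    intro S
    constructor
    · rintro ⟨a, c⟩
      by_cases hS : none ∈ S
      · left
        have := same h1 h2 h3 S {none} (by simpa)
        rw [h0] at this
        have e : typ W ∅ = typ W (eraseNone S) := by
          by_contra e
          exact c {none} (this.1.2 fun p => by simp [cum]) (fun q => e (this.2.1 q)) (.inl (by simp))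
        ext (_ | p)
        · simpa
        · have e1 := congrFun e p
          have e2 := ht (eraseNone S) p
          simp only [typ, filter_empty, card_empty] at e1
          simp only [typ] at e2
          simp only [mem_singleton, reduceCtorEq, iff_false]
          intro hp
          have := e2 (by simpa)
          omega
      · refine .inr ⟨hS, a.resolve_left hS, fun T d e f => ?_⟩
        have := same h1 h2 h3 S (T.map Function.Embedding.some) (by simpa)
        simp only [eraseNone_map_some] at this
        exact c _ (this.1.2 d) (fun q => e (this.2.1 q)) (.inr (by simpa))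
    · rintro (rfl | ⟨a, b, c⟩)
      · refine ⟨.inl (by simp), fun T d e f => ?_⟩
        have d' : ∀ p, (if none ∈ T then 1 else 0) + cum W (eraseNone T) p ≤ 1 := by
          intro p
          have := d (some p)
          rw [cum_some h1 h2 h3, cum_some h1 h2 h3, h0] at this
          simpa [cum] using this
        by_cases hT : none ∈ T
        · apply e
          congr 1
          ext (_ | p)
          · simpa
          · have e1 := d' p
            have e2 := hc (eraseNone T) p
            rw [if_pos hT] at e1
            simp only [mem_singleton, reduceCtorEq, iff_false]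
            intro hp
            have := e2 (by simpa)
            omega
        · have f' := f.resolve_left hT
          have key : ∀ i ∈ eraseNone T, ∀ j ∈ eraseNone T, Des W i j → i = j := by
            intro i hi j hj hd
            have e1 := d' j
            rw [if_neg hT, zero_add] at e1
            exact card_le_one.1 e1 i (by simp [hd, mem_eraseNone.1 hi]) j
              (by simp [des_refl, mem_eraseNone.1 hj])
          rcases (eraseNone T).eq_empty_or_nonempty with h | ⟨i, hi⟩
          · exact g.emp (h ▸ f')
          · refine hv i (g.mono _ _ (fun j hj => ?_) f')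
            rcases g.comp i j with h | h
            · simp [key i hi j hj h]
            · simp [key j hj i hi h]
      · refine ⟨.inr b, fun T d e f => ?_⟩
        have hT : none ∉ T := by
          have := d none
          rw [cum_none h1 h2 h3, cum_none h1 h2 h3, if_neg a] at this
          intro hT
          simp [hT] at this
        have := same h1 h2 h3 S T (by simp [a, hT])
        exact c _ (this.1.1 d) (fun q => e (this.2.2 q)) (f.resolve_left hT)
  have hr : ∀ k, InvRobust V k ↔ InvRobust W k := by
    intro k
    refine not_congr ⟨?_, ?_⟩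
    · rintro ⟨j, X, Y, a, b, c, d, e⟩
      refine ⟨j, fun i => eraseNone (X i), fun i => eraseNone (Y i), a, b, fun i => ?_,
        fun i hw => d i (.inr hw), fun p => by simpa using e (some p)⟩
      have := e none
      rw [filter_false_of_mem (p := fun a => none ∈ Y a) fun i _ hi => d i (.inl hi), card_empty,
        card_eq_zero, filter_eq_empty_iff] at this
      refine (((hs _).1 (c i)).resolve_left fun h => this (mem_univ i) ?_).2
      simp [h]
    · rintro ⟨j, X, Y, a, b, c, d, e⟩
      refine ⟨j, fun i => (X i).map Function.Embedding.some, fun i => (Y i).map Function.Embedding.some, a, b,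
        fun i => (hs _).2 (.inr ⟨by simp, by simpa using c i⟩), fun i hw => d i (by simpa [hV] using hw),
        fun p => ?_⟩
      cases p with
      | none => simp
      | some p => simpa using e p
  refine ⟨⟨fun S T h hw => hw.imp (fun q => h q) (g.mono _ _ (eraseNone.monotone h)), by simpa [hV] using g.emp,
    .inl (by simp), ?_, ?_, (hr _).2 g.rob, fun h => g.nrob ((hr _).1 h)⟩, ?_⟩
  · rintro (_ | i) (_ | j)
    · exact .inl (h2 _)
    · exact .inl (h2 _)
    · exact .inr (h2 _)
    · simpa [h1] using g.comp i j
  · rw [← g.num, ← Set.ncard_image_of_injective (typ W '' _) (elim_inj 0),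
      ← Set.ncard_insert_of_notMem (a := typ V {none}) _ (((Set.toFinite _).image _).image _)]
    · congr 1
      ext τ
      constructor
      · rintro ⟨S, a, rfl⟩
        rcases (hs S).1 a with rfl | this
        · exact .inl rfl
        · exact .inr ⟨_, ⟨_, this.2, rfl⟩, by rw [typ_eq h1 h2 h3, if_neg this.1]⟩
      · rintro (rfl | ⟨_, ⟨S, a, rfl⟩, rfl⟩)
        · exact ⟨_, (hs _).2 (.inl rfl), rfl⟩
        · exact ⟨S.map Function.Embedding.some, (hs _).2 (.inr ⟨by simp, by simpa using a⟩),
            by simp [typ_eq h1 h2 h3]⟩
    · rintro ⟨τ, -, h⟩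
      have := congrFun h none
      simp [typ_eq h1 h2 h3] at this
  · rintro (_ | i)
    · exact .inr (g.mono _ _ (fun i _ => by simp) g.full)
    · exact .inl (by simp)

end Pool.Agent.H.MP_0d0d23_co
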