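import Mathlib
import Pool.Agent.H.MP_0d0d23_co.Step

set_option autoImplicit false

namespace Pool.Agent.H.MP_0d0d23_co

open Finset

abbrev P (n : ℕ) := Fin 2 ⊕ Fin (n + 2) ⊕ Fin (n + 2)

variable {n : ℕ}

def cl : P n → ℕ := Sum.elim (fun _ => 0) (Sum.elim (fun _ => 1) (fun _ => 2))

def cnt (k : ℕ) (S : Finset (P n)) : ℕ := (S.filter fun i => cl i = k).card

def B (S : Finset (P n)) : Prop :=
  (1 ≤ cnt 0 S ∧ 2 ≤ cnt 0 S + cnt 1 S ∧ n + 3 ≤ cnt 0 S + cnt 1 S + cnt 2 S) ∨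
    (2 ≤ cnt 0 S ∧ 3 ≤ cnt 0 S + cnt 1 S + cnt 2 S)

lemma cl_le (i : P n) : cl i ≤ 2 := by rcases i with i | i | i <;> simp [cl]

lemma cnt_ins (k : ℕ) (S : Finset (P n)) (i : P n) (h : i ∉ S) :
    cnt k (insert i S) = cnt k S + if cl i = k then 1 else 0 := by
  unfold cnt
  rw [filter_insert]
  split_ifs
  · rw [card_insert_of_notMem (by simp [h])]
  · rfl

lemma cnt_mono (k : ℕ) {S T : Finset (P n)} (h : S ⊆ T) : cnt k S ≤ cnt k T :=
  card_le_card (filter_subset_filter _ h)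

lemma cnt_sum (k : ℕ) (S : Finset (P n)) :
    cnt k S = ∑ p : P n, if cl p = k then (if p ∈ S then 1 else 0) else 0 := by
  unfold cnt
  rw [card_eq_sum_ones, sum_filter]
  rw [← sum_subset (subset_univ S) fun p _ hp => by simp [hp]]
  exact sum_congr rfl fun p hp => by simp [hp]

lemma cnt_ds (X : Finset (Fin 2)) (Y Z : Finset (Fin (n + 2))) :
    cnt 0 (X.disjSum (Y.disjSum Z)) = X.card ∧ cnt 1 (X.disjSum (Y.disjSum Z)) = Y.card ∧
    cnt 2 (X.disjSum (Y.disjSum Z)) = Z.card := by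
  simp only [cnt, card_filter, sum_disjSum, cl, Sum.elim_inl, Sum.elim_inr]
  simp

lemma cnt_univ : cnt 0 (univ : Finset (P n)) = 2 ∧ cnt 1 (univ : Finset (P n)) = n + 2 ∧
    cnt 2 (univ : Finset (P n)) = n + 2 := by
  simpa using cnt_ds (n := n) univ univ univ

lemma cnt_le (S : Finset (P n)) : cnt 0 S ≤ 2 ∧ cnt 1 S ≤ n + 2 ∧ cnt 2 S ≤ n + 2 := by
  have := @cnt_univ n
  have h := fun k => cnt_mono k (subset_univ S)
  exact ⟨this.1 ▸ h 0, this.2.1 ▸ h 1, this.2.2 ▸ h 2⟩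

lemma ex_sub (U : Finset (P n)) (x y z : ℕ) (hx : x ≤ cnt 0 U) (hy : y ≤ cnt 1 U) (hz : z ≤ cnt 2 U) :
    ∃ S ⊆ U, cnt 0 S = x ∧ cnt 1 S = y ∧ cnt 2 S = z := by
  obtain ⟨X, hX, rfl⟩ := exists_subset_card_eq hx
  obtain ⟨Y, hY, rfl⟩ := exists_subset_card_eq hy
  obtain ⟨Z, hZ, rfl⟩ := exists_subset_card_eq hz
  have a : ∀ i ∈ X, i ∈ U ∧ cl i = 0 := fun i h => mem_filter.1 (hX h)
  have b : ∀ i ∈ Y, i ∈ U ∧ cl i = 1 := fun i h => mem_filter.1 (hY h)
  have c : ∀ i ∈ Z, i ∈ U ∧ cl i = 2 := fun i h => mem_filter.1 (hZ h)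
  refine ⟨X ∪ Y ∪ Z, fun i => by grind, ?_, ?_, ?_⟩ <;> unfold cnt <;> congr 1 <;> ext i <;> grind

lemma cnt_er (k : ℕ) (U : Finset (P n)) (i : P n) (h : i ∈ U) :
    cnt k U = cnt k (U.erase i) + if cl i = k then 1 else 0 := by
  rw [← cnt_ins k _ i (by simp), insert_erase h]

lemma des_iff (i j : P n) : Des B i j ↔ cl i ≤ cl j := by
  have hi := cl_le i
  have hj := cl_le j
  constructor
  · intro h
    by_contra hc
    have hne : j ≠ i := by rintro rfl; simp at hc
    have u := @cnt_univ n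
    have e1 := fun k => cnt_er k univ i (mem_univ _)
    have e2 := fun k => cnt_er k (univ.erase i) j (by simp [hne])
    have f0 := (e1 0).trans (congrArg (· + _) (e2 0))
    have f1 := (e1 1).trans (congrArg (· + _) (e2 1))
    have f2 := (e1 2).trans (congrArg (· + _) (e2 2))
    simp only [u] at f0 f1 f2
    have key : ∀ x y z, x ≤ cnt 0 ((univ.erase i).erase j) → y ≤ cnt 1 ((univ.erase i).erase j) →
        z ≤ cnt 2 ((univ.erase i).erase j) → ∃ S : Finset (P n), cnt 0 S = x ∧ cnt 1 S = y ∧ cnt 2 S = z ∧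
          i ∉ S ∧ j ∉ S ∧ (B (insert j S) → B (insert i S)) := by
      intro x y z a b c
      obtain ⟨S, hS, s0, s1, s2⟩ := ex_sub _ x y z a b c
      have a1 : i ∉ S := fun q => by simpa using hS q
      have a2 : j ∉ S := fun q => by simpa using hS q
      exact ⟨S, s0, s1, s2, a1, a2, h S a1 a2⟩
    have : (cl j = 0 ∧ cl i = 1) ∨ (cl j = 0 ∧ cl i = 2) ∨ (cl j = 1 ∧ cl i = 2) := by omega
    rcases this with ⟨a, b⟩ | ⟨a, b⟩ | ⟨a, b⟩ <;> simp [a, b] at f0 f1 f2
    · obtain ⟨S, s0, s1, s2, a1, a2, h⟩ := key 0 (n + 1) (n + 2) (by omega) (by omega) (by omega)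
      simp [B, cnt_ins, a1, a2, s0, s1, s2, a, b] at h
      omega
    · obtain ⟨S, s0, s1, s2, a1, a2, h⟩ := key 0 (n + 2) (n + 1) (by omega) (by omega) (by omega)
      simp [B, cnt_ins, a1, a2, s0, s1, s2, a, b] at h
      omega
    · obtain ⟨S, s0, s1, s2, a1, a2, h⟩ := key 1 0 (n + 1) (by omega) (by omega) (by omega)
      simp [B, cnt_ins, a1, a2, s0, s1, s2, a, b] at h
      omega
  · intro h S a1 a2 hw
    simp only [B, cnt_ins _ _ _ a1, cnt_ins _ _ _ a2] at hw ⊢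
    split_ifs at hw ⊢ <;> omega

lemma typ_B (S : Finset (P n)) (p : P n) : typ B S p = cnt (cl p) S := by
  unfold typ cnt
  congr 1
  ext i
  simp only [mem_filter, des_iff]
  grind

lemma cum_B (S : Finset (P n)) (p : P n) : cum B S p =
    cnt 0 S + (if 1 ≤ cl p then cnt 1 S else 0) + (if 2 ≤ cl p then cnt 2 S else 0) := by
  unfold cum
  simp only [des_iff]
  induction S using Finset.induction_on with
  | empty => simp [cnt]
  | insert i S h ih =>
    have := cl_le i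
    have := cl_le p
    rw [filter_insert]
    simp only [cnt_ins _ _ _ h]
    by_cases q : cl i ≤ cl p
    · rw [if_pos q, card_insert_of_notMem (by simp [h]), ih]
      split_ifs <;> omega
    · rw [if_neg q, ih]
      split_ifs <;> omega

lemma dom_iff (S T : Finset (P n)) : (∀ p, cum B T p ≤ cum B S p) ↔ cnt 0 T ≤ cnt 0 S ∧
    cnt 0 T + cnt 1 T ≤ cnt 0 S + cnt 1 S ∧ cnt 0 T + cnt 1 T + cnt 2 T ≤ cnt 0 S + cnt 1 S + cnt 2 S := by
  simp [cum_B, cl]

lemma typ_iff (S T : Finset (P n)) : typ B T = typ B S ↔ cnt 0 T = cnt 0 S ∧ cnt 1 T = cnt 1 S ∧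
    cnt 2 T = cnt 2 S := by
  simp [funext_iff, typ_B, cl]

lemma ex_all (x y z : ℕ) (hx : x ≤ 2) (hy : y ≤ n + 2) (hz : z ≤ n + 2) :
    ∃ S : Finset (P n), cnt 0 S = x ∧ cnt 1 S = y ∧ cnt 2 S = z := by
  have u := @cnt_univ n
  obtain ⟨S, -, h⟩ := ex_sub (n := n) univ x y z (by omega) (by omega) (by omega)
  exact ⟨S, h⟩

lemma sm_iff (hn : 1 ≤ n) (S : Finset (P n)) : ShiftMin B S ↔
    (cnt 0 S = 1 ∧ cnt 1 S = 1 ∧ cnt 2 S = n + 1) ∨ (cnt 0 S = 2 ∧ cnt 1 S = 0 ∧ cnt 2 S = 1) := by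
  simp only [ShiftMin, dom_iff, Ne, typ_iff]
  constructor
  · rintro ⟨a, b⟩
    obtain ⟨T, t⟩ := ex_all (n := n) 1 1 (n + 1) (by omega) (by omega) (by omega)
    obtain ⟨U, u⟩ := ex_all (n := n) 2 0 1 (by omega) (by omega) (by omega)
    have h1 := b T
    have h2 := b U
    simp only [B, t, u] at a h1 h2
    omega
  · intro h
    refine ⟨by unfold B; omega, fun T a b => ?_⟩
    have := cnt_le T
    unfold B
    omega

lemma base (hn : 1 ≤ n) : Good (B (n := n)) 2 (n + 1) ∧ ∀ p, B ((univ : Finset (P n)).erase p) := by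
  have u := @cnt_univ n
  refine ⟨⟨fun S T h hw => ?_, by simp [B, cnt], by unfold B; omega, fun i j => ?_, ?_, ?_, ?_⟩, fun p => ?_⟩
  · have := cnt_mono 0 h
    have := cnt_mono 1 h
    have := cnt_mono 2 h
    unfold B at *
    omega
  · simp only [des_iff]; omega
  · obtain ⟨T, t⟩ := ex_all (n := n) 1 1 (n + 1) (by omega) (by omega) (by omega)
    obtain ⟨U, u⟩ := ex_all (n := n) 2 0 1 (by omega) (by omega) (by omega)
    rw [Set.ncard_eq_two]
    refine ⟨typ B T, typ B U, by rw [Ne, typ_iff]; omega, ?_⟩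
    ext τ
    constructor
    · rintro ⟨S, a, rfl⟩
      have := (sm_iff hn S).1 a
      simp only [Set.mem_insert_iff, Set.mem_singleton_iff, typ_iff]
      omega
    · rintro (rfl | rfl)
      · exact ⟨T, (sm_iff hn T).2 (.inl t), rfl⟩
      · exact ⟨U, (sm_iff hn U).2 (.inr u), rfl⟩
  · rintro ⟨j, X, Y, a, b, c, d, e⟩
    have hs : ∀ k, ∑ i, cnt k (X i) = ∑ i, cnt k (Y i) := by
      intro k
      simp only [cnt_sum]
      rw [sum_comm, sum_comm (s := (univ : Finset (Fin j)))]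
      refine sum_congr rfl fun p _ => ?_
      have := e p
      rw [card_filter, card_filter] at this
      split_ifs
      · exact this
      · rfl
    let φ : Finset (P n) → ℕ := fun S => (n + 2) * cnt 0 S + cnt 1 S + cnt 2 S
    have hφ : ∑ i, φ (X i) = ∑ i, φ (Y i) := by
      simp only [φ, sum_add_distrib, ← mul_sum, hs]
    have hX : ∀ i, 2 * (n + 2) ≤ φ (X i) ∧ (φ (X i) = 2 * (n + 2) → cnt 1 (X i) = 1) := by
      intro i
      rcases (sm_iff hn _).1 (c i) with h | h <;> simp only [φ] <;> rw [h.1, h.2.1, h.2.2] <;> omega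
    have hY : ∀ i, φ (Y i) ≤ 2 * (n + 2) ∧
        (φ (Y i) = 2 * (n + 2) → cnt 1 (Y i) = 0 ∨ cnt 1 (Y i) = n + 2) := by
      intro i
      have h := d i
      have := cnt_le (Y i)
      unfold B at h
      have : cnt 0 (Y i) = 0 ∨ cnt 0 (Y i) = 1 ∨ cnt 0 (Y i) = 2 := by omega
      rcases this with q | q | q <;> simp only [φ, q] at h ⊢ <;> omega
    have h1 : ∀ i, φ (Y i) = φ (X i) := fun i =>
      (sum_eq_sum_iff_of_le fun i _ => (hY i).1.trans (hX i).1).1 hφ.symm i (mem_univ _)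
    have h2 : ∑ i, cnt 1 (X i) = j := by
      rw [sum_congr rfl fun i _ => (hX i).2 (le_antisymm (h1 i ▸ (hY i).1) (hX i).1)]
      simp
    have h3 : n + 2 ∣ ∑ i, cnt 1 (Y i) := dvd_sum fun i _ => by
      rcases (hY i).2 (le_antisymm (hY i).1 (h1 i ▸ (hX i).1)) with h | h <;> simp [h]
    rw [← hs, h2] at h3
    have := Nat.le_of_dvd (by omega) h3
    omega
  · intro h
    apply h
    let X : Fin (n + 2) → Finset (P n) := fun k =>
      disjSum {if k = 1 then 1 else 0} (disjSum {k} (univ.erase k))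
    let Y : Fin (n + 2) → Finset (P n) := fun k =>
      disjSum (if k = 1 then univ else if k = 0 then ∅ else {0})
        (disjSum (if k = 0 then univ else ∅) (if k = 1 then ∅ else univ))
    have h01 : (0 : Fin (n + 2)) ≠ 1 := by simp
    have hs : ∀ i : Fin n, i.succ.succ ≠ 1 := fun i => (Fin.succ_succ_ne_one i)
    refine ⟨n + 2, X, Y, by omega, by omega, fun k => (sm_iff hn _).2 (.inl ?_), fun k => ?_, fun p => ?_⟩
    · simp [cnt_ds, X]
    · simp only [B, Y, cnt_ds]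
      by_cases k0 : k = 0
      · simp [k0]
      · by_cases k1 : k = 1 <;> simp [k0, k1]
    · rcases p with a | a | a
      · rw [card_filter, card_filter, Fin.sum_univ_succ, Fin.sum_univ_succ, Fin.sum_univ_succ (n := n + 1),
          Fin.sum_univ_succ]
        fin_cases a <;> simp [X, Y, hs]
      · have e1 : (univ.filter fun k => Sum.inr (Sum.inl a) ∈ X k) = {a} := by ext; simp [X, eq_comm]
        have e2 : (univ.filter fun k => Sum.inr (Sum.inl a) ∈ Y k) = {0} := by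
          ext k; by_cases h : k = 0 <;> simp [Y, h]
        simp [e1, e2]
      · have e1 : (univ.filter fun k => Sum.inr (Sum.inr a) ∈ X k) = univ.erase a := by
          ext; simp [X, eq_comm]
        have e2 : (univ.filter fun k => Sum.inr (Sum.inr a) ∈ Y k) = univ.erase 1 := by
          ext k; by_cases h : k = 1 <;> simp [Y, h]
        simp [e1, e2]
  · have e0 := cnt_er 0 univ p (mem_univ _)
    have e1 := cnt_er 1 univ p (mem_univ _)
    have e2 := cnt_er 2 univ p (mem_univ _)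
    unfold B
    split_ifs at e0 e1 e2 <;> omega

theorem all (hn : 1 ≤ n) (r : ℕ) : ∃ (N : Type) (_ : Fintype N) (_ : DecidableEq N) (W : Finset N → Prop),
    Good W (r + 2) (n + 1) ∧ ∀ p, W (univ.erase p) := by
  induction r with
  | zero => exact ⟨P n, inferInstance, inferInstance, B, base hn⟩
  | succ r ih =>
    obtain ⟨N, _, _, W, g, h⟩ := ih
    obtain ⟨g1, h1⟩ := veto g h
    exact ⟨Option (Option N), inferInstance, inferInstance, _, pass g1 h1⟩

end Pool.Agent.H.MP_0d0d23_co
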